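import Mathlib

/-!
An explicit admissible set of 14 points for the four directions
horizontal, vertical, slope 1, slope -1 and r = 2.
-/

namespace Pool.Agent.Results.MP_17a11e_co.FourteenPoints

/-- The fourteen integer points. -/
def pts : Finset (ℤ × ℤ) :=
  {(0, 1), (0, 2), (1, 0), (1, 1), (4, 2), (4, 6), (6, 0), (6, 4), (7, 7), (7, 8),
    (9, 6), (9, 8), (10, 4), (10, 7)}

/-- The inclusion of the integer grid in the plane. -/
def emb : ℤ × ℤ ↪ ℝ × ℝ :=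
  ⟨fun q => ((q.1 : ℝ), (q.2 : ℝ)), by
    intro a b h
    simp only [Prod.mk.injEq, Int.cast_inj] at h
    exact Prod.ext h.1 h.2⟩

theorem aux (f : ℤ × ℤ → ℤ) (g : ℝ × ℝ → ℝ) (hfg : ∀ q, g (emb q) = (f q : ℝ))
    (hf : ∀ q ∈ pts, (pts.filter fun q' => f q' = f q).card = 2) (c : ℝ) :
    {p : ℝ × ℝ | p ∈ pts.map emb ∧ g p = c}.ncard = 0 ∨
      {p : ℝ × ℝ | p ∈ pts.map emb ∧ g p = c}.ncard = 2 := by
  by_cases h : ∃ q ∈ pts, g (emb q) = c
  · right
    obtain ⟨q, hq, hqc⟩ := h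
    have : {p : ℝ × ℝ | p ∈ pts.map emb ∧ g p = c} =
        (((pts.filter fun q' => f q' = f q).map emb : Finset (ℝ × ℝ)) : Set (ℝ × ℝ)) := by
      ext p
      simp only [Set.mem_ofPred_eq, Finset.coe_map, Set.mem_image, Finset.mem_map,
        Finset.mem_coe, Finset.mem_filter]
      constructor
      · rintro ⟨⟨q', hq', rfl⟩, hc⟩
        refine ⟨q', ⟨hq', ?_⟩, rfl⟩
        have : ((f q' : ℤ) : ℝ) = (f q : ℝ) := by
          rw [← hfg, ← hfg, hc, hqc]
        exact_mod_cast this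
      · rintro ⟨q', ⟨hq', hf'⟩, rfl⟩
        refine ⟨⟨q', hq', rfl⟩, ?_⟩
        rw [hfg, hf', ← hfg, hqc]
    rw [this, Set.ncard_coe_finset, Finset.card_map]
    exact hf q hq
  · left
    have : {p : ℝ × ℝ | p ∈ pts.map emb ∧ g p = c} = ∅ := by
      ext p
      simp only [Set.mem_ofPred_eq, Finset.mem_map, Set.mem_empty_iff_false, iff_false, not_and]
      rintro ⟨q, hq, rfl⟩ hc
      exact h ⟨q, hq, hc⟩
    rw [this, Set.ncard_empty]

/-- There is a set of exactly fourteen points of the plane such that every horizontal line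
`y = c`, every vertical line `x = c`, every line `y = x + c` and every line `y = -x + c`
contains either none or exactly two of them. -/
theorem result : ∃ S : Finset (ℝ × ℝ), S.card = 14 ∧
    (∀ c : ℝ, {p : ℝ × ℝ | p ∈ S ∧ p.2 = c}.ncard = 0 ∨
      {p : ℝ × ℝ | p ∈ S ∧ p.2 = c}.ncard = 2) ∧
    (∀ c : ℝ, {p : ℝ × ℝ | p ∈ S ∧ p.1 = c}.ncard = 0 ∨
      {p : ℝ × ℝ | p ∈ S ∧ p.1 = c}.ncard = 2) ∧
    (∀ c : ℝ, {p : ℝ × ℝ | p ∈ S ∧ p.2 = p.1 + c}.ncard = 0 ∨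
      {p : ℝ × ℝ | p ∈ S ∧ p.2 = p.1 + c}.ncard = 2) ∧
    (∀ c : ℝ, {p : ℝ × ℝ | p ∈ S ∧ p.2 = -p.1 + c}.ncard = 0 ∨
      {p : ℝ × ℝ | p ∈ S ∧ p.2 = -p.1 + c}.ncard = 2) := by
  refine ⟨pts.map emb, ?_, ?_, ?_, ?_, ?_⟩
  · rw [Finset.card_map]; decide
  · exact aux (fun q => q.2) (fun p => p.2) (fun q => rfl) (by decide)
  · exact aux (fun q => q.1) (fun p => p.1) (fun q => rfl) (by decide)
  · intro c
    have h := aux (fun q => q.2 - q.1) (fun p => p.2 - p.1) (fun q => by push_cast; rfl)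
      (by decide) c
    have e : {p : ℝ × ℝ | p ∈ pts.map emb ∧ p.2 = p.1 + c} =
        {p : ℝ × ℝ | p ∈ pts.map emb ∧ p.2 - p.1 = c} := by
      ext p
      simp only [Set.mem_ofPred_eq, sub_eq_iff_eq_add, add_comm]
    rw [e]; exact h
  · intro c
    have h := aux (fun q => q.2 + q.1) (fun p => p.2 + p.1) (fun q => by push_cast; rfl)
      (by decide) c
    have e : {p : ℝ × ℝ | p ∈ pts.map emb ∧ p.2 = -p.1 + c} =
        {p : ℝ × ℝ | p ∈ pts.map emb ∧ p.2 + p.1 = c} := by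
      ext p
      simp only [Set.mem_ofPred_eq]
      constructor
      · rintro ⟨h1, h2⟩; exact ⟨h1, by linarith⟩
      · rintro ⟨h1, h2⟩; exact ⟨h1, by linarith⟩
    rw [e]; exact h

end Pool.Agent.Results.MP_17a11e_co.FourteenPoints
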